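import Pool.Agent.R944.Tysz.Sys

/-!
# Numerators and denominators of unique solutions of additive equation systems

If a system of equations of the forms `x_i = 1` and `x_i + x_j = x_k` in `n` unknowns has exactly
one complex solution, then each coordinate of the solution is a rational number whose numerator and
denominator in lowest terms are bounded by `2^(n-1)` in absolute value.

Proof. By Cramer's rule the solution is a quotient of determinants of order `n`. These are bounded
by the inequality `|det A| ≤ ∏ M_i`, where `M_i` bounds the sum of the positive entries of row `i`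
and the sum of the absolute values of its negative entries (C. R. Johnson and M. Newman).
-/

set_option autoImplicit false

open Pool.Agent.R944.Tysz

namespace Pool.Agent.Results.MP_555c3f_al.ReducedSize

/-- **Q1, affirmative.** Let `S` be the system of the equations `x_i = 1` (`i` in `U`) and
`x_i + x_j = x_k` (`(i, j, k)` in `T`). If `x` is its only solution in `ℂ^n`, then every `x_i` is a
rational number `r` whose numerator and denominator (in lowest terms, with positive denominator) are
at most `2^(n-1)` in absolute value. -/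
theorem result (n : ℕ) (U : Set (Fin n)) (T : Set (Fin n × Fin n × Fin n)) (x : Fin n → ℂ)
    (hU : ∀ i ∈ U, x i = 1) (hT : ∀ t ∈ T, x t.1 + x t.2.1 = x t.2.2)
    (huniq : ∀ y : Fin n → ℂ, (∀ i ∈ U, y i = 1) → (∀ t ∈ T, y t.1 + y t.2.1 = y t.2.2) → y = x) :
    ∀ i, ∃ r : ℚ, x i = (r : ℂ) ∧ |r.num| ≤ 2 ^ (n - 1) ∧ r.den ≤ 2 ^ (n - 1) := by
  let ι := {i : Fin n // i ∈ U} ⊕ {t : Fin n × Fin n × Fin n // t ∈ T}
  let a : ι → Fin n → ℤ := fun e =>
    match e with
    | .inl i => rowU i.1
    | .inr t => rowA t.1.1 t.1.2.1 t.1.2.2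
  let b : ι → ℤ := fun e =>
    match e with
    | .inl _ => 1
    | .inr _ => 0
  obtain ⟨D, p, hD, hD2, hp, hsol⟩ := rational_main a b x
    (fun e => by
      rcases e with i | t
      · show ∑ k, ((rowU i.1 k : ℤ) : ℂ) * x k = ((1 : ℤ) : ℂ)
        rw [eval_rowU, hU _ i.2]; simp
      · show ∑ k, ((rowA t.1.1 t.1.2.1 t.1.2.2 k : ℤ) : ℂ) * x k = ((0 : ℤ) : ℂ)
        rw [eval_rowA, hT _ t.2]; simp)
    (fun e => by
      rcases e with i | t
      · exact good_rowU i.1
      · exact good_rowA _ _ _)
  have hDc : (D : ℂ) ≠ 0 := by exact_mod_cast hD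
  have hDq : (D : ℚ) ≠ 0 := by exact_mod_cast hD
  have hy : (fun k => (p k : ℂ) / D) = x := by
    apply huniq
    · intro i hi
      have h1 := hsol (.inl ⟨i, hi⟩)
      have h2 : ∑ k, ((rowU i k : ℤ) : ℤ) * p k = D * 1 := h1
      have h3 := eval_rowU (R := ℤ) i p
      simp only [Int.cast_id] at h3
      rw [h3, mul_one] at h2
      show (p i : ℂ) / D = 1
      rw [h2]
      exact div_self hDc
    · rintro ⟨i, j, k⟩ ht
      have h1 := hsol (.inr ⟨(i, j, k), ht⟩)
      have h2 : ∑ l, ((rowA i j k l : ℤ) : ℤ) * p l = D * 0 := h1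
      have h3 := eval_rowA (R := ℤ) i j k p
      simp only [Int.cast_id] at h3
      rw [h3, mul_zero] at h2
      show (p i : ℂ) / D + (p j : ℂ) / D = (p k : ℂ) / D
      rw [← add_div]
      congr 1
      have h4 : p i + p j = p k := by linarith
      exact_mod_cast h4
  intro i
  refine ⟨(p i : ℚ) / D, ?_, ?_, ?_⟩
  · rw [← hy]; push_cast; rfl
  · by_cases hpi : p i = 0
    · rw [hpi]; simp
    · have h1 : ((p i : ℚ) / D).num ∣ p i := by
        rw [← Rat.divInt_eq_div]; exact Rat.num_dvd (p i) hD
      have h2 := Int.natAbs_le_of_dvd_ne_zero h1 hpi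
      have h3 := hp i
      have h4 : ((((p i : ℚ) / D).num.natAbs : ℕ) : ℤ) ≤ (((p i).natAbs : ℕ) : ℤ) := by
        exact_mod_cast h2
      rw [Int.natCast_natAbs, Int.natCast_natAbs] at h4
      exact le_trans h4 h3
  · have h1 : (((p i : ℚ) / D).den : ℤ) ∣ D := by
      rw [← Rat.divInt_eq_div]; exact Rat.den_dvd (p i) D
    have h2 := Int.natAbs_le_of_dvd_ne_zero h1 hD
    have h3 : ((((p i : ℚ) / D).den : ℕ) : ℤ) ≤ 2 ^ (n - 1) := by
      have h4 : (((((p i : ℚ) / D).den : ℤ).natAbs : ℕ)) = ((p i : ℚ) / D).den :=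
        Int.natAbs_natCast _
      rw [h4] at h2
      have h5 : ((D.natAbs : ℕ) : ℤ) = |D| := Int.natCast_natAbs D
      have h6 : ((((p i : ℚ) / D).den : ℕ) : ℤ) ≤ ((D.natAbs : ℕ) : ℤ) := by exact_mod_cast h2
      rw [h5] at h6
      exact le_trans h6 hD2
    exact_mod_cast h3

end Pool.Agent.Results.MP_555c3f_al.ReducedSize
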